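import Pool.Agent.H.MP_e9f8c5_pr.Main

set_option autoImplicit false

open scoped Topology
open Filter

namespace Pool.Agent.Results.MP_e9f8c5_pr.Convergence

open Pool.Agent.H.MP_e9f8c5_pr

/-- **Full positive answer to Q1 of MP_e9f8c5_pr.**

For all `d ≥ 1`, `n` and nonempty finite `S ⊆ ℤ` the set `lipSet d n S` of Lipschitz functions on
the depth `n` `d`-ary tree with leaf values in `S` is finite and nonempty (so that `law d n r S` is
the law of the restriction to depth `r` under the uniform measure on it), and

(a) for `d = 2` and every nonempty finite `S`, the uniform measures converge locally weakly as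
`n → ∞`;

(b) for every `d ≥ 2` and every nonempty finite `S`, they converge locally weakly along the even
depths and also along the odd depths. -/
theorem result :
    (∀ d : ℕ, 1 ≤ d → ∀ (n : ℕ) (S : Finset ℤ), S.Nonempty →
      (lipSet d n S).Finite ∧ (lipSet d n S).Nonempty) ∧
    (∀ S : Finset ℤ, S.Nonempty → ConvergesAlong 2 S (fun n => n)) ∧
    (∀ d : ℕ, 2 ≤ d → ∀ S : Finset ℤ, S.Nonempty →
      ConvergesAlong d S (fun n => 2 * n) ∧ ConvergesAlong d S (fun n => 2 * n + 1)) :=
  ⟨fun d hd n S hS => ⟨lipSet_finite d hd n S, lipSet_nonempty d n S hS⟩,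
    fun S hS => binary_all_depths S hS,
    fun d hd S hS => ⟨even_depths d hd S hS, odd_depths d hd S hS⟩⟩

end Pool.Agent.Results.MP_e9f8c5_pr.Convergence
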